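import Mathlib

/-!
# Cap sets from codes over a system of sets (extended product construction)

A system is a sequence of finite subsets `X 0, X 1, …` of an abelian group, each of them a cap, and
a table `m` of masks: if the bit `c` of `m a b` is `0` then `x + y + z ≠ 0` for all `x ∈ X a`,
`y ∈ X b`, `z ∈ X c`.  Words of length `n` over the letters `0, …, 7` are coded by their digits in
base 8.  A list of words gives a subset of `G^n`, the union of the products of the `X a`.
-/

set_option autoImplicit false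

open Finset

namespace Pool.Agent.Helper30.Cap

/-- no three elements with sum `0` apart from `x, x, x` -/
def IsCap {G : Type} [AddCommGroup G] (S : Finset G) : Prop :=
  ∀ x ∈ S, ∀ y ∈ S, ∀ z ∈ S, x + y + z = 0 → x = y ∧ y = z

/-- no element of `A`, of `B` and of `C` have sum `0` -/
def Free {G : Type} [AddCommGroup G] (A B C : Finset G) : Prop :=
  ∀ x ∈ A, ∀ y ∈ B, ∀ z ∈ C, x + y + z ≠ 0

theorem Free.perm1 {G : Type} [AddCommGroup G] {A B C : Finset G} (h : Free A B C) : Free B A C :=
  fun x hx y hy z hz e => h y hy x hx z hz (by rw [add_comm y x]; exact e)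

theorem Free.perm2 {G : Type} [AddCommGroup G] {A B C : Finset G} (h : Free A B C) : Free A C B :=
  fun x hx y hy z hz e => h x hx z hz y hy (by rw [add_right_comm]; exact e)

/-- the digit `t` in base 8 -/
def dg (N t : ℕ) : ℕ := N / 8 ^ t % 8

theorem dg_zero (N : ℕ) : dg N 0 = N % 8 := by simp [dg]

theorem dg_succ (N t : ℕ) : dg N (t + 1) = dg (N / 8) t := by
  unfold dg
  rw [pow_succ', Nat.div_div_eq_div_mul]

/-- one bit for every digit -/
def oh : ℕ → ℕ → ℕ
  | 0, _ => 0
  | n + 1, N => 2 ^ (N % 8) + 256 * oh n (N / 8)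

/-- the masks of a pair of words -/
def bm (m : ℕ → ℕ → ℕ) : ℕ → ℕ → ℕ → ℕ
  | 0, _, _ => 0
  | n + 1, U, V => m (U % 8) (V % 8) % 256 + 256 * bm m n (U / 8) (V / 8)

theorem land_split {a b c d : ℕ} (ha : a < 256) (hc : c < 256) :
    Nat.land (a + 256 * b) (c + 256 * d) = Nat.land a c + 256 * Nat.land b d := by
  have h256 : (256 : ℕ) = 2 ^ 8 := by norm_num
  have hac : Nat.land a c < 2 ^ 8 := by
    have : Nat.land a c ≤ a := Nat.and_le_left
    omega
  apply Nat.eq_of_testBit_eq
  intro i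
  show (HAnd.hAnd (a + 256 * b) (c + 256 * d) : ℕ).testBit i = _
  rw [Nat.testBit_and]
  rw [h256, add_comm a, add_comm c, add_comm (Nat.land a c)]
  rw [Nat.testBit_two_pow_mul_add _ (by omega), Nat.testBit_two_pow_mul_add _ (by omega),
    Nat.testBit_two_pow_mul_add _ hac]
  split_ifs with h
  · show _ = (HAnd.hAnd a c : ℕ).testBit i
    rw [Nat.testBit_and]
  · show _ = (HAnd.hAnd b d : ℕ).testBit (i - 8)
    rw [Nat.testBit_and]

theorem land_oh (m : ℕ → ℕ → ℕ) : ∀ (n U V W : ℕ),
    (∀ t < n, (m (dg U t) (dg V t)).testBit (dg W t) = true) →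
    Nat.land (oh n W) (bm m n U V) = oh n W := by
  intro n
  induction n with
  | zero => intro U V W _; simp [oh, bm]
  | succ n ih =>
    intro U V W h
    have h0 := h 0 (Nat.succ_pos n)
    rw [dg_zero, dg_zero, dg_zero] at h0
    have hW : W % 8 < 8 := Nat.mod_lt _ (by norm_num)
    have h1 := ih (U / 8) (V / 8) (W / 8) (by
      intro t ht
      have := h (t + 1) (Nat.succ_lt_succ ht)
      rwa [dg_succ, dg_succ, dg_succ] at this)
    have hp : 2 ^ (W % 8) < 256 := by
      calc 2 ^ (W % 8) ≤ 2 ^ 7 := Nat.pow_le_pow_right (by norm_num) (by omega)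
        _ < 256 := by norm_num
    show Nat.land (2 ^ (W % 8) + 256 * oh n (W / 8))
      (m (U % 8) (V % 8) % 256 + 256 * bm m n (U / 8) (V / 8)) = _
    rw [land_split hp (Nat.mod_lt _ (by norm_num)), h1]
    have h2 : Nat.land (2 ^ (W % 8)) (m (U % 8) (V % 8) % 256) = 2 ^ (W % 8) := by
      apply Nat.eq_of_testBit_eq
      intro i
      show (HAnd.hAnd (2 ^ (W % 8)) (m (U % 8) (V % 8) % 256) : ℕ).testBit i = _
      rw [Nat.testBit_and, show (256 : ℕ) = 2 ^ 8 by norm_num, Nat.testBit_mod_two_pow]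
      by_cases hi : W % 8 = i
      · rw [← hi, h0]
        simp [hW]
      · rw [Nat.testBit_two_pow_of_ne hi]
        simp
    rw [h2]
    rfl

/-- the set of a word -/
def Bx {G : Type} [DecidableEq G] (n : ℕ) (X : ℕ → Finset G) (N : ℕ) : Finset (Fin n → G) :=
  Fintype.piFinset fun t : Fin n => X (dg N t)

/-- the set of a list of words -/
def Fam {G : Type} [DecidableEq G] (n : ℕ) (X : ℕ → Finset G) (l : List ℕ) :
    Finset (Fin n → G) := l.toFinset.biUnion (Bx n X)

/-- the size of a word -/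
def sz (s : ℕ → ℕ) : ℕ → ℕ → ℕ
  | 0, _ => 1
  | n + 1, N => s (N % 8) * sz s n (N / 8)

/-- the size of a list of words -/
def szl (s : ℕ → ℕ) (n : ℕ) (l : List ℕ) : ℕ := (l.map (sz s n)).sum

theorem card_Bx {G : Type} [DecidableEq G] (X : ℕ → Finset G) (s : ℕ → ℕ)
    (hs : ∀ a, (X a).card = s a) : ∀ n N : ℕ, (Bx n X N).card = sz s n N := by
  intro n
  induction n with
  | zero => intro N; simp [Bx, sz]
  | succ n ih =>
    intro N
    have := ih (N / 8)
    unfold Bx at this ⊢
    rw [Fintype.card_piFinset] at this ⊢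
    rw [Fin.prod_univ_succ]
    simp only [Fin.val_zero, Fin.val_succ, dg_zero, dg_succ]
    rw [this, hs]
    rfl

/-- a system -/
structure Sys (G : Type) [AddCommGroup G] (X : ℕ → Finset G) (m : ℕ → ℕ → ℕ) (s : ℕ → ℕ) :
    Prop where
  three : ∀ x : G, x + x + x = 0
  cap : ∀ a, IsCap (X a)
  card : ∀ a, (X a).card = s a
  free : ∀ a b c, (m a b).testBit c = false → Free (X a) (X b) (X c)

/-- evaluate the first argument first -/
def force (n : ℕ) (f : ℕ → Bool) : Bool := Nat.rec (f 0) (fun k _ => f (k + 1)) n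

theorem force_eq (n : ℕ) (f : ℕ → Bool) : force n f = f n := by
  cases n <;> rfl

/-- check of three lists; `lo` is the list of the `oh n W` -/
def crossB (m : ℕ → ℕ → ℕ) (n : ℕ) (l1 l2 lo : List ℕ) : Bool :=
  l1.all fun U => l2.all fun V => force (bm m n U V) fun B =>
    lo.all fun o => !(Nat.beq (Nat.land o B) o)

/-- check of one list -/
def selfB (m : ℕ → ℕ → ℕ) (n : ℕ) (l lo : List ℕ) : Bool :=
  l.all fun U => l.all fun V => force (bm m n U V) fun B =>
    lo.all fun o => !(Nat.beq (Nat.land o B) o) || (Nat.beq U V && Nat.beq o (oh n U))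

theorem exists_good {m : ℕ → ℕ → ℕ} {n U V W : ℕ}
    (h : Nat.land (oh n W) (bm m n U V) ≠ oh n W) :
    ∃ t < n, (m (dg U t) (dg V t)).testBit (dg W t) = false := by
  by_contra hc
  push Not at hc
  exact h (land_oh m n U V W fun t ht => by simpa using hc t ht)

theorem free_of_good {G : Type} [AddCommGroup G] [DecidableEq G] {X : ℕ → Finset G}
    {m : ℕ → ℕ → ℕ} {s : ℕ → ℕ} (S : Sys G X m s) {n U V W : ℕ}
    (h : Nat.land (oh n W) (bm m n U V) ≠ oh n W) : Free (Bx n X U) (Bx n X V) (Bx n X W) := by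
  obtain ⟨t, ht, htt⟩ := exists_good h
  intro x hx y hy z hz e
  unfold Bx at hx hy hz
  rw [Fintype.mem_piFinset] at hx hy hz
  exact S.free _ _ _ htt _ (hx ⟨t, ht⟩) _ (hy ⟨t, ht⟩) _ (hz ⟨t, ht⟩) (by
    have := congrFun e ⟨t, ht⟩
    simpa using this)

theorem cross {G : Type} [AddCommGroup G] [DecidableEq G] {X : ℕ → Finset G}
    {m : ℕ → ℕ → ℕ} {s : ℕ → ℕ} (S : Sys G X m s) {n : ℕ} {l1 l2 l3 lo : List ℕ}
    (hlo : l3.map (oh n) = lo) (h : crossB m n l1 l2 lo = true) :
    Free (Fam n X l1) (Fam n X l2) (Fam n X l3) := by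
  unfold crossB at h
  simp only [List.all_eq_true, force_eq] at h
  intro x hx y hy z hz
  unfold Fam at hx hy hz
  rw [mem_biUnion] at hx hy hz
  obtain ⟨U, hU, hx⟩ := hx
  obtain ⟨V, hV, hy⟩ := hy
  obtain ⟨W, hW, hz⟩ := hz
  rw [List.mem_toFinset] at hU hV hW
  have h1 := h U hU V hV (oh n W) (by rw [← hlo]; exact List.mem_map_of_mem hW)
  refine free_of_good S ?_ x hx y hy z hz
  intro e
  rw [e] at h1
  simp at h1

theorem selfCap {G : Type} [AddCommGroup G] [DecidableEq G] {X : ℕ → Finset G}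
    {m : ℕ → ℕ → ℕ} {s : ℕ → ℕ} (S : Sys G X m s) {n : ℕ} {l lo : List ℕ}
    (hlo : l.map (oh n) = lo) (hnd : lo.Nodup) (h : selfB m n l lo = true) :
    IsCap (Fam n X l) ∧ (Fam n X l).card = szl s n l := by
  unfold selfB at h
  simp only [List.all_eq_true, force_eq] at h
  have key : ∀ U ∈ l, ∀ V ∈ l, ∀ W ∈ l, ¬ (U = V ∧ W = U) →
      Free (Bx n X U) (Bx n X V) (Bx n X W) := by
    intro U hU V hV W hW hne
    have h1 := h U hU V hV (oh n W) (by rw [← hlo]; exact List.mem_map_of_mem hW)
    refine free_of_good S ?_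
    intro e
    rw [e] at h1
    simp only [Nat.beq_refl, Bool.not_true, Bool.false_or, Bool.and_eq_true, Nat.beq_eq] at h1
    refine hne ⟨h1.1, ?_⟩
    rw [← hlo] at hnd
    exact List.inj_on_of_nodup_map hnd hW hU h1.2
  have hln : l.Nodup := by
    rw [← hlo] at hnd
    exact List.Nodup.of_map _ hnd
  constructor
  · intro x hx y hy z hz e
    unfold Fam at hx hy hz
    rw [mem_biUnion] at hx hy hz
    obtain ⟨U, hU, hx⟩ := hx
    obtain ⟨V, hV, hy⟩ := hy
    obtain ⟨W, hW, hz⟩ := hz
    rw [List.mem_toFinset] at hU hV hW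
    by_cases hne : U = V ∧ W = U
    · obtain ⟨rfl, rfl⟩ := hne
      unfold Bx at hx hy hz
      rw [Fintype.mem_piFinset] at hx hy hz
      have h2 : ∀ t : Fin n, x t = y t ∧ y t = z t := fun t =>
        S.cap _ _ (hx t) _ (hy t) _ (hz t) (by
          have := congrFun e t
          simpa using this)
      exact ⟨funext fun t => (h2 t).1, funext fun t => (h2 t).2⟩
    · exact absurd e (key U hU V hV W hW hne x hx y hy z hz)
  · unfold Fam szl
    rw [Finset.card_biUnion]
    · rw [← List.sum_toFinset _ hln]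
      exact Finset.sum_congr rfl fun N _ => card_Bx X s S.card n N
    · intro U hU V hV hne
      have hU' : U ∈ l := by simpa using hU
      have hV' : V ∈ l := by simpa using hV
      show Disjoint (Bx n X U) (Bx n X V)
      rw [Finset.disjoint_left]
      intro x hx hx'
      exact key U hU' U hU' V hV' (fun e => hne e.2.symm) x hx x hx x hx'
        (funext fun t => S.three (x t))

theorem three_pi {G : Type} [AddCommGroup G] (h : ∀ x : G, x + x + x = 0) {n : ℕ}
    (x : Fin n → G) : x + x + x = 0 := funext fun t => h (x t)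

end Pool.Agent.Helper30.Cap
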